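import Pool.Agent.Helper57_SOS.Lin
import Pool.Agent.Helper49_SOS.Dat22
import Pool.Agent.Helper29_LPV.LsX

/-!
# The polynomial of the mixed pairs is computed from the data (helper29, for MP_37fa12_co)
-/

set_option autoImplicit false

namespace Pool.Agent.SOS.H29

open Pool.Agent.SOS

theorem hls : H57.ls0 (t3 22 N22.Pd) (t3 22 N22.Qd) = lsX := by decide +kernel

end Pool.Agent.SOS.H29
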