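import Pool.Agent.Helper49_SOS.Chk
import Pool.Agent.Helper49_SOS.Dense

/-!
# Mixed pairs with a fixed inner product (helper29, for MP_37fa12_co)

The condition: a polynomial `F(a, b, C)` is nonnegative for `a, b ≥ 0`, `C = (2 π k)²`,
`C ≤ A B`, `A = (M + R a) / w`, `B = (N + R b) / w'`.  `C` is known up to `10^(-20)`: `low2 F` has
as coefficients lower bounds of the coefficients (polynomials in `C`) of `F`, scaled by `q^KK`; `P`
is a rounded form of `low2 F` (`ge2`), and `chk` of `Pool.Agent.SOS` proves `P ≥ 0`.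
-/

set_option autoImplicit false

namespace Pool.Agent.SOS.H29

open Pool.Agent.SOS

/-- lower bound of `t x` for `lo ≤ t ≤ hi` -/
def stp (lo hi : ℕ) : ℤ → ℤ
  | Int.ofNat n => Int.ofNat (Nat.mul lo n)
  | Int.negSucc n => Int.neg (Int.ofNat (Nat.mul hi (Nat.succ n)))

theorem stp_le {lo hi : ℕ} {t : ℝ} (h1 : (lo : ℝ) ≤ t) (h2 : t ≤ hi) {x : ℤ} {y : ℝ}
    (hxy : (x : ℝ) ≤ y) : ((stp lo hi x : ℤ) : ℝ) ≤ t * y := by
  have ht : 0 ≤ t := le_trans (Nat.cast_nonneg lo) h1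
  rcases x with n | n
  · have e : ((stp lo hi (Int.ofNat n) : ℤ) : ℝ) = (lo : ℝ) * (n : ℝ) := by
      show (((lo * n : ℕ) : ℤ) : ℝ) = _
      push_cast
      ring
    have h0 : (n : ℝ) ≤ y := by simpa using hxy
    rw [e]
    exact mul_le_mul h1 h0 (Nat.cast_nonneg n) ht
  · have e : ((stp lo hi (Int.negSucc n) : ℤ) : ℝ) = (hi : ℝ) * (-((n : ℝ) + 1)) := by
      show ((-((hi * (n + 1) : ℕ) : ℤ) : ℤ) : ℝ) = _
      push_cast
      ring
    have h0 : -((n : ℝ) + 1) ≤ y := by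
      have : ((Int.negSucc n : ℤ) : ℝ) = -((n : ℝ) + 1) := by
        rw [Int.negSucc_eq]
        push_cast
        ring
      rw [← this]
      exact hxy
    rw [e]
    have h3 : t * (-((n : ℝ) + 1)) ≤ t * y := mul_le_mul_of_nonneg_left h0 ht
    have h4 : (hi : ℝ) * (-((n : ℝ) + 1)) ≤ t * (-((n : ℝ) + 1)) := by
      have : 0 ≤ (n : ℝ) + 1 := by positivity
      nlinarith
    exact h4.trans h3

/-- `q^|p|` times a lower bound of `p(C)`, `lo ≤ q C ≤ hi` -/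
def lw (lo hi q : ℕ) : D1 → ℤ
  | [] => 0
  | c :: p => Int.add (Int.mul c (Int.ofNat (Nat.pow q (Nat.succ p.length))))
      (stp lo hi (lw lo hi q p))

theorem lw_le {lo hi q : ℕ} {C : ℝ} (h1 : (lo : ℝ) ≤ q * C) (h2 : q * C ≤ hi) :
    ∀ p : D1, ((lw lo hi q p : ℤ) : ℝ) ≤ (q : ℝ) ^ p.length * v1 p C
  | [] => by simp [lw, v1_nil]
  | c :: p => by
    have ih := lw_le h1 h2 p
    have h3 := stp_le h1 h2 ih
    have e : ((lw lo hi q (c :: p) : ℤ) : ℝ) =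
        (c : ℝ) * (q : ℝ) ^ (p.length + 1) + ((stp lo hi (lw lo hi q p) : ℤ) : ℝ) := by
      show (((c * ((q ^ (p.length + 1) : ℕ) : ℤ) + stp lo hi (lw lo hi q p) : ℤ)) : ℝ) = _
      push_cast
      ring
    rw [e, v1_cons, List.length_cons]
    have e2 : (q : ℝ) ^ (p.length + 1) * ((c : ℝ) + C * v1 p C) =
        (c : ℝ) * (q : ℝ) ^ (p.length + 1) + (q * C) * ((q : ℝ) ^ p.length * v1 p C) := by ring
    rw [e2]
    linarith

/-- `q^KK` times a lower bound -/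
def lwK (lo hi q KK : ℕ) (p : D1) : ℤ :=
  Int.mul (lw lo hi q p) (Int.ofNat (Nat.pow q (Nat.sub KK p.length)))

theorem lwK_le {lo hi q KK : ℕ} {C : ℝ} (h1 : (lo : ℝ) ≤ q * C) (h2 : q * C ≤ hi) {p : D1}
    (hp : p.length ≤ KK) : ((lwK lo hi q KK p : ℤ) : ℝ) ≤ (q : ℝ) ^ KK * v1 p C := by
  have h := lw_le h1 h2 p
  have e : ((lwK lo hi q KK p : ℤ) : ℝ) =
      ((lw lo hi q p : ℤ) : ℝ) * (q : ℝ) ^ (KK - p.length) := by
    show (((lw lo hi q p * ((q ^ (KK - p.length) : ℕ) : ℤ) : ℤ)) : ℝ) = _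
    push_cast
    ring
  have e2 : (q : ℝ) ^ KK = (q : ℝ) ^ p.length * (q : ℝ) ^ (KK - p.length) := by
    rw [← pow_add]
    congr 1
    omega
  rw [e, e2]
  have h3 : 0 ≤ (q : ℝ) ^ (KK - p.length) := by positivity
  nlinarith [mul_le_mul_of_nonneg_right h h3]

def ln1 (KK : ℕ) : D2 → Bool
  | [] => true
  | p :: l => Nat.ble p.length KK && ln1 KK l

def ln2 (KK : ℕ) : D3 → Bool
  | [] => true
  | p :: l => ln1 KK p && ln2 KK l

def low1 (lo hi q KK : ℕ) (p : D2) : D1 := p.map (lwK lo hi q KK)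
def low2 (lo hi q KK : ℕ) (p : D3) : D2 := p.map (low1 lo hi q KK)

theorem low1_le {lo hi q KK : ℕ} {C : ℝ} (h1 : (lo : ℝ) ≤ q * C) (h2 : q * C ≤ hi) {b : ℝ}
    (hb : 0 ≤ b) : ∀ p : D2, ln1 KK p = true →
      v1 (low1 lo hi q KK p) b ≤ (q : ℝ) ^ KK * v2 p b C
  | [], _ => by simp [low1, v1_nil, v2_nil]
  | r :: p, h => by
    simp only [ln1, Bool.and_eq_true] at h
    have ih := low1_le h1 h2 hb p h.2
    have h3 := lwK_le h1 h2 (Nat.le_of_ble_eq_true h.1) (KK := KK)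
    show v1 (lwK lo hi q KK r :: low1 lo hi q KK p) b ≤ _
    rw [v1_cons, v2_cons]
    nlinarith [mul_le_mul_of_nonneg_left ih hb]

theorem low2_le {lo hi q KK : ℕ} {C : ℝ} (h1 : (lo : ℝ) ≤ q * C) (h2 : q * C ≤ hi) {a b : ℝ}
    (ha : 0 ≤ a) (hb : 0 ≤ b) : ∀ p : D3, ln2 KK p = true →
      v2 (low2 lo hi q KK p) a b ≤ (q : ℝ) ^ KK * v3 p a b C
  | [], _ => by simp [low2, v2_nil, v3_nil]
  | r :: p, h => by
    simp only [ln2, Bool.and_eq_true] at h
    have ih := low2_le h1 h2 ha hb p h.2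
    have h3 := low1_le h1 h2 hb r h.1
    show v2 (low1 lo hi q KK r :: low2 lo hi q KK p) a b ≤ _
    rw [v2_cons, v3_cons]
    nlinarith [mul_le_mul_of_nonneg_left ih ha]

/-! ### rounding down -/

def nn : ℤ → Bool
  | Int.ofNat _ => true
  | Int.negSucc _ => false

theorem nn_iff {x : ℤ} (h : nn x = true) : 0 ≤ x := by
  rcases x with n | n
  · exact Int.natCast_nonneg n
  · exact absurd h (by simp [nn])

/-- `2^s y ≤ x` -/
def ge0 (s : ℕ) (x y : ℤ) : Bool := nn (Int.add x (Int.neg (Int.mul y (Int.ofNat (Nat.pow 2 s)))))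

theorem ge0_le {s : ℕ} {x y : ℤ} (h : ge0 s x y = true) : (2 : ℝ) ^ s * (y : ℝ) ≤ x := by
  have h1 : 0 ≤ x + -(y * ((2 ^ s : ℕ) : ℤ)) := nn_iff h
  have h2 : y * ((2 ^ s : ℕ) : ℤ) ≤ x := by linarith
  have h3 : ((y * ((2 ^ s : ℕ) : ℤ) : ℤ) : ℝ) ≤ (x : ℝ) := by exact_mod_cast h2
  push_cast at h3
  linarith

def ge1 (s : ℕ) : D1 → D1 → Bool
  | [], [] => true
  | x :: p, y :: q => ge0 s x y && ge1 s p q
  | _, _ => false

theorem ge1_le {s : ℕ} {b : ℝ} (hb : 0 ≤ b) : ∀ p q : D1, ge1 s p q = true →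
    (2 : ℝ) ^ s * v1 q b ≤ v1 p b
  | [], [], _ => by simp [v1_nil]
  | [], _ :: _, h => by simp [ge1] at h
  | _ :: _, [], h => by simp [ge1] at h
  | x :: p, y :: q, h => by
    simp only [ge1, Bool.and_eq_true] at h
    have ih := ge1_le hb p q h.2
    have h3 := ge0_le h.1
    rw [v1_cons, v1_cons]
    nlinarith [mul_le_mul_of_nonneg_left ih hb]

def ge2 (s : ℕ) : D2 → D2 → Bool
  | [], [] => true
  | x :: p, y :: q => ge1 s x y && ge2 s p q
  | _, _ => false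

theorem ge2_le {s : ℕ} {a b : ℝ} (ha : 0 ≤ a) (hb : 0 ≤ b) : ∀ p q : D2, ge2 s p q = true →
    (2 : ℝ) ^ s * v2 q a b ≤ v2 p a b
  | [], [], _ => by simp [v2_nil]
  | [], _ :: _, h => by simp [ge2] at h
  | _ :: _, [], h => by simp [ge2] at h
  | x :: p, y :: q, h => by
    simp only [ge2, Bool.and_eq_true] at h
    have ih := ge2_le ha hb p q h.2
    have h3 := ge1_le hb x y h.1
    rw [v2_cons, v2_cons]
    nlinarith [mul_le_mul_of_nonneg_left ih ha]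

/-! ### terms -/

def tmB (i : ℕ) : ℕ → D1 → List Tm
  | _, [] => []
  | j, c :: p => (c, i, j, 0) :: tmB i (Nat.succ j) p

def tmA : ℕ → D2 → List Tm
  | _, [] => []
  | i, r :: p => tmB i 0 r ++ tmA (Nat.succ i) p

theorem ev_tmB (i : ℕ) (a b c : ℝ) : ∀ (p : D1) (j : ℕ),
    ev (tmB i j p) a b c = a ^ i * (b ^ j * v1 p b)
  | [], j => by simp [tmB, ev_nil, v1_nil]
  | x :: p, j => by
    rw [tmB, ev_cons, ev_tmB i a b c p, v1_cons, Nat.succ_eq_add_one]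
    simp only [pow_zero, mul_one]
    ring

theorem ev_tmA (a b c : ℝ) : ∀ (p : D2) (i : ℕ), ev (tmA i p) a b c = a ^ i * v2 p a b
  | [], i => by simp [tmA, ev_nil, v2_nil]
  | r :: p, i => by
    rw [tmA, ev_append, ev_tmB, ev_tmA a b c p, v2_cons, Nat.succ_eq_add_one, pow_zero]
    ring

/-! ### multipliers -/

/-- the multiplier `A B - lo / q` -/
def gAB (lo q M N R w w' : ℕ) : List Tm :=
  [(Int.ofNat (q * (M * N)) - Int.ofNat (lo * (w * w')), 0, 0, 0), (Int.ofNat (q * (R * N)), 1, 0, 0),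
    (Int.ofNat (q * (M * R)), 0, 1, 0), (Int.ofNat (q * (R * R)), 1, 1, 0)]

theorem ev_gAB (lo q M N R w w' : ℕ) (a b c : ℝ) : ev (gAB lo q M N R w w') a b c =
    (q : ℝ) * (((M : ℝ) + R * a) * ((N : ℝ) + R * b)) - lo * ((w : ℝ) * w') := by
  simp only [gAB, ev_cons, ev_nil, Int.ofNat_eq_natCast]
  push_cast
  ring

/-- the allowed multipliers -/
def gOk (G g : List Tm) : Bool :=
  decide (g = [((1 : ℤ), 0, 0, 0)]) || (decide (g = [((1 : ℤ), 1, 0, 0)]) ||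
    (decide (g = [((1 : ℤ), 0, 1, 0)]) || (decide (g = [((1 : ℤ), 1, 1, 0)]) || decide (g = G))))

def gsOk (G : List Tm) : List Blk → Bool
  | [] => true
  | b :: l => gOk G b.g && gsOk G l

theorem gOk_nonneg {G g : List Tm} {a b c : ℝ} (ha : 0 ≤ a) (hb : 0 ≤ b) (hG : 0 ≤ ev G a b c)
    (h : gOk G g = true) : 0 ≤ ev g a b c := by
  simp only [gOk, Bool.or_eq_true, decide_eq_true_eq] at h
  rcases h with h | h | h | h | h <;> rw [h]
  · simp [ev_cons, ev_nil]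
  · simp [ev_cons, ev_nil, ha]
  · simp [ev_cons, ev_nil, hb]
  · simp only [ev_cons, ev_nil]
    have := mul_nonneg ha hb
    simpa using this
  · exact hG

theorem gsOk_nonneg {G : List Tm} {a b c : ℝ} (ha : 0 ≤ a) (hb : 0 ≤ b) (hG : 0 ≤ ev G a b c) :
    ∀ bs : List Blk, gsOk G bs = true → ∀ x ∈ bs, 0 ≤ ev x.g a b c
  | [], _, x, hx => absurd hx List.not_mem_nil
  | y :: l, h, x, hx => by
    simp only [gsOk, Bool.and_eq_true] at h
    rcases List.mem_cons.1 hx with rfl | hx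
    · exact gOk_nonneg ha hb hG h.1
    · exact gsOk_nonneg ha hb hG l h.2 x hx

/-! ### the theorem -/

/-- **a polynomial in `a`, `b` and a number `C` known up to a small error** -/
theorem mix_sound {K d1 d2 H β E D s KK lo hi q : ℕ} {F : D3} {P : D2} {bs : List Blk}
    (hq : Nat.ble 1 q = true) (hln : ln2 KK F = true)
    (hge : ge2 s (low2 lo hi q KK F) P = true)
    (hchk : chk K d1 d2 H β E D (tmA 0 P) bs = true) (hS : ∀ x ∈ bs, SmOk H x)
    {a b C : ℝ} (ha : 0 ≤ a) (hb : 0 ≤ b) (h1 : (lo : ℝ) ≤ q * C) (h2 : q * C ≤ hi)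
    (hg : ∀ x ∈ bs, 0 ≤ ev x.g a b 0) : 0 ≤ v3 F a b C := by
  have h3 := chk_sound hchk hS a b 0 ha hb le_rfl hg
  rw [ev_tmA, pow_zero, one_mul] at h3
  have h4 := ge2_le (s := s) ha hb _ _ hge
  have h5 := low2_le (KK := KK) h1 h2 ha hb F hln
  have hq0 : (0 : ℝ) < q := by exact_mod_cast Nat.le_of_ble_eq_true hq
  have h6 : 0 ≤ (q : ℝ) ^ KK * v3 F a b C := by
    have : 0 ≤ (2 : ℝ) ^ s * v2 P a b := by positivity
    linarith
  exact nonneg_of_mul_nonneg_right h6 (by positivity)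

/-- the bounds of `10^40 (2 π k)²` -/
def piLo (k : ℕ) : ℕ := 4 * (k * k) * (314159265358979323846 * 314159265358979323846)
def piHi (k : ℕ) : ℕ := 4 * (k * k) * (314159265358979323847 * 314159265358979323847)
def piQ : ℕ := 10 ^ 40

theorem pi_bounds (k : ℕ) : (piLo k : ℝ) ≤ (piQ : ℝ) * (2 * Real.pi * k) ^ 2 ∧
    (piQ : ℝ) * (2 * Real.pi * k) ^ 2 ≤ (piHi k : ℝ) := by
  have h1 := Real.pi_gt_d20
  have h2 := Real.pi_lt_d20
  have h3 : (10 ^ 20 * 3.14159265358979323846 : ℝ) ≤ 10 ^ 20 * Real.pi := by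
    have : (0 : ℝ) < 10 ^ 20 := by norm_num
    nlinarith
  have h4 : (10 ^ 20 * Real.pi : ℝ) ≤ 10 ^ 20 * 3.14159265358979323847 := by
    have : (0 : ℝ) < 10 ^ 20 := by norm_num
    nlinarith
  have e3 : (piQ : ℝ) * (2 * Real.pi * k) ^ 2 =
      4 * ((k : ℝ) * k) * ((10 ^ 20 * Real.pi) * (10 ^ 20 * Real.pi)) := by
    unfold piQ
    push_cast
    ring
  have hk : 0 ≤ 4 * ((k : ℝ) * k) := by positivity
  have h5 : (0 : ℝ) ≤ 10 ^ 20 * 3.14159265358979323846 := by norm_num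
  constructor
  · rw [e3]
    refine (le_of_eq ?_).trans (mul_le_mul_of_nonneg_left (mul_self_le_mul_self h5 h3) hk)
    unfold piLo
    push_cast
    norm_num
  · rw [e3]
    refine (mul_le_mul_of_nonneg_left (mul_self_le_mul_self (h5.trans h3) h4) hk).trans
      (le_of_eq ?_)
    unfold piHi
    push_cast
    norm_num

/-- the check of the multipliers: `lo2 / q2 ≤ piLo k / piQ` -/
def gChk (k lo2 q2 M N R w w' : ℕ) (bs : List Blk) : Bool :=
  Nat.ble (lo2 * piQ) (piLo k * q2) && gsOk (gAB lo2 q2 M N R w w') bs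

/-- **mixed pairs with the inner product `2 π k`** -/
theorem mix_k {K d1 d2 H β E D s KK k lo2 q2 M N R w w' : ℕ} {F : D3} {P : D2} {bs : List Blk}
    (hln : ln2 KK F = true) (hge : ge2 s (low2 (piLo k) (piHi k) piQ KK F) P = true)
    (hchk : chk K d1 d2 H β E D (tmA 0 P) bs = true) (hS : ∀ x ∈ bs, SmOk H x)
    (hgc : gChk k lo2 q2 M N R w w' bs = true) (hw : 0 < w) (hw' : 0 < w') (hR : 0 < R) (A B : ℝ)
    (hA : (M : ℝ) / w ≤ A) (hB : (N : ℝ) / w' ≤ B) (hAB : (2 * Real.pi * k) ^ 2 ≤ A * B) :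
    0 ≤ v3 F ((w * A - M) / R) ((w' * B - N) / R) ((2 * Real.pi * k) ^ 2) := by
  have hw0 : (0 : ℝ) < w := by exact_mod_cast hw
  have hw1 : (0 : ℝ) < w' := by exact_mod_cast hw'
  have hR0 : (0 : ℝ) < R := by exact_mod_cast hR
  have ha : 0 ≤ (w * A - M) / R := by
    apply div_nonneg _ hR0.le
    have := (div_le_iff₀ hw0).1 hA
    linarith
  have hb : 0 ≤ (w' * B - N) / R := by
    apply div_nonneg _ hR0.le
    have := (div_le_iff₀ hw1).1 hB
    linarith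
  simp only [gChk, Bool.and_eq_true] at hgc
  have hp := pi_bounds k
  refine mix_sound (by decide) hln hge hchk hS ha hb hp.1 hp.2 ?_
  refine gsOk_nonneg ha hb ?_ bs hgc.2
  rw [ev_gAB]
  have e1 : (M : ℝ) + R * ((w * A - M) / R) = w * A := by field_simp; ring
  have e2 : (N : ℝ) + R * ((w' * B - N) / R) = w' * B := by field_simp; ring
  rw [e1, e2]
  have h3 : ((lo2 * piQ : ℕ) : ℝ) ≤ ((piLo k * q2 : ℕ) : ℝ) := by
    exact_mod_cast Nat.le_of_ble_eq_true hgc.1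
  push_cast at h3
  have hQ : (0 : ℝ) < (piQ : ℝ) := by unfold piQ; positivity
  have h4 : (lo2 : ℝ) * piQ ≤ piQ * (q2 * (A * B)) := by
    have h5 : (piLo k : ℝ) * q2 ≤ (piQ : ℝ) * (2 * Real.pi * k) ^ 2 * q2 :=
      mul_le_mul_of_nonneg_right hp.1 (Nat.cast_nonneg q2)
    have h6 : (piQ : ℝ) * (2 * Real.pi * k) ^ 2 * q2 ≤ (piQ : ℝ) * (A * B) * q2 :=
      mul_le_mul_of_nonneg_right (mul_le_mul_of_nonneg_left hAB hQ.le) (Nat.cast_nonneg q2)
    linarith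
  have h7 : (lo2 : ℝ) ≤ q2 * (A * B) := by
    by_contra hcon
    rw [not_le] at hcon
    nlinarith [mul_lt_mul_of_pos_left hcon hQ]
  have h8 : 0 ≤ (q2 * (A * B) - lo2) * ((w : ℝ) * w') := by
    apply mul_nonneg
    · linarith
    · positivity
  nlinarith

end Pool.Agent.SOS.H29
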