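import Pool.Agent.Helper29_LPV.FK0
import Pool.Agent.Helper29_LPV.FK1
import Pool.Agent.Helper29_LPV.FK2
import Pool.Agent.Helper29_LPV.FK3
import Pool.Agent.Helper29_LPV.FK4
import Pool.Agent.Helper29_LPV.FK5

/-!
# The mixed pairs with `k < 6` (helper29, for MP_37fa12_co)
-/

set_option autoImplicit false

namespace Pool.Agent.SOS.H29

open Pool.Agent.SOS

/-- **all fixed inner products `2 π k`, `k < 6`** -/
theorem mx6 (k : ℕ) (hk : k < 6) (A B : ℝ) (hA : (23 : ℝ) ≤ A) (hB : (5 : ℝ) ≤ B)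
    (hAB : (2 * Real.pi * k) ^ 2 ≤ A * B) : 0 ≤ v3 lsL A B ((2 * Real.pi * k) ^ 2) := by
  match k, hk with
  | 0, _ => exact K0.mk A B hA hB hAB
  | 1, _ => exact K1.mk A B hA hB hAB
  | 2, _ => exact K2.mk A B hA hB hAB
  | 3, _ => exact K3.mk A B hA hB hAB
  | 4, _ => exact K4.mk A B hA hB hAB
  | 5, _ => exact K5.mk A B hA hB hAB
  | n + 6, h => exact absurd h (by omega)

end Pool.Agent.SOS.H29
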