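import Pool.Agent.Helper29_LPV.Mix6
import Pool.Agent.Helper29_LPV.Hls
import Pool.Agent.Helper4_SOS.EqT

/-!
# The mixed pairs with `k < 6`, for the computed polynomial (helper29, for MP_37fa12_co)
-/

set_option autoImplicit false

namespace Pool.Agent.SOS.H29

open Pool.Agent.SOS

theorem lsX_lsL (A B C : ℝ) : v3 lsX A B C = v3 lsL A B C :=
  H4.eq3_v A B C _ _ (by decide +kernel)

/-- **all fixed inner products `2 π k`, `k < 6`** -/
theorem mx7 (k : ℕ) (hk : k < 6) (A B : ℝ) (hA : (23 : ℝ) ≤ A) (hB : (5 : ℝ) ≤ B)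
    (hAB : (2 * Real.pi * k) ^ 2 ≤ A * B) : 0 ≤ v3 lsX A B ((2 * Real.pi * k) ^ 2) := by
  rw [lsX_lsL]
  exact mx6 k hk A B hA hB hAB

end Pool.Agent.SOS.H29
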